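import Pool.Agent.helper17.GFG.Spec

/-!
# Row `gg:KVA` (MP_561ff4_al): the element `x_th(1) x_{-th}(κ)` on the group generated by `x_r`, `x_{r + th}`
-/

set_option autoImplicit false

open Finset

namespace Pool.Agent.EXT

open Pool.Agent.EXC

section
variable {G K : Type} [Group G] [Field K]

theorem KVA_zero {f : K → G} (hf : ∀ a b, f (a + b) = f a * f b) : f 0 = 1 := by
  have h := hf 0 0
  rw [add_zero] at h
  exact left_eq_mul.1 h

theorem KVA_neg {f : K → G} (hf : ∀ a b, f (a + b) = f a * f b) (a : K) : f (-a) = (f a)⁻¹ := by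
  have h := hf (-a) a
  rw [neg_add_cancel, KVA_zero hf] at h
  exact eq_inv_of_mul_eq_one_left h.symm

/-- the pairs `(p, q)` with `f p * g q ∈ H` -/
def KVA_M {f g : K → G} (hf : ∀ a b, f (a + b) = f a * f b) (hg : ∀ a b, g (a + b) = g a * g b)
    (hfg : ∀ a b, f a * g b = g b * f a) (H : Subgroup G) : AddSubgroup (K × K) where
  carrier := {m | f m.1 * g m.2 ∈ H}
  zero_mem' := by
    show f 0 * g 0 ∈ H
    rw [KVA_zero hf, KVA_zero hg, one_mul]
    exact H.one_mem
  add_mem' := by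
    intro a b ha hb
    show f (a.1 + b.1) * g (a.2 + b.2) ∈ H
    have e : f (a.1 + b.1) * g (a.2 + b.2) = (f a.1 * g a.2) * (f b.1 * g b.2) := by
      rw [hf, hg]
      calc f a.1 * f b.1 * (g a.2 * g b.2) = f a.1 * (f b.1 * g a.2) * g b.2 := by group
        _ = f a.1 * (g a.2 * f b.1) * g b.2 := by rw [hfg]
        _ = (f a.1 * g a.2) * (f b.1 * g b.2) := by group
    rw [e]
    exact H.mul_mem ha hb
  neg_mem' := by
    intro a ha
    show f (-a.1) * g (-a.2) ∈ H
    have e : f (-a.1) * g (-a.2) = (f a.1 * g a.2)⁻¹ := by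
      rw [hfg, KVA_neg hf, KVA_neg hg, mul_inv_rev]
    rw [e]
    exact H.inv_mem ha

theorem KVA_pow [Finite K] (u : K) (hu : u ≠ 0) : ∃ n : ℕ, u ^ n * u = 1 := by
  have h := isOfFinOrder_of_finite (Units.mk0 u hu)
  rw [isOfFinOrder_iff_pow_eq_one] at h
  obtain ⟨n, hn, h1⟩ := h
  refine ⟨n - 1, ?_⟩
  rw [← pow_succ, Nat.sub_add_cancel hn]
  have h2 := congrArg (fun v : Kˣ => (v : K)) h1
  simpa using h2

theorem KVA_abs [Finite K] (κ ε : K) (hκ : κ ≠ 0) (hε : ε = 1 ∨ ε = -1) (f g : K → G)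
    (hf : ∀ a b, f (a + b) = f a * f b) (hg : ∀ a b, g (a + b) = g a * g b)
    (hfg : ∀ a b, f a * g b = g b * f a) (Y : G)
    (hY : ∀ p q, Y * (f p * g q) * Y⁻¹ = f (p - ε * κ * q) * g (q + ε * (p - ε * κ * q)))
    (H : Subgroup G) (hYH : Y ∈ H) (s : K) (hs : s ∈ Subring.closure {κ}) (hs0 : s ≠ 0)
    (h : f s ∈ H ∨ g s ∈ H) : ∀ t ∈ Subring.closure {κ}, f t ∈ H ∧ g t ∈ H := by
  have hε2 : ε * ε = 1 := by rcases hε with h | h <;> rw [h] <;> ring
  obtain ⟨M, hM⟩ : ∃ M, M = KVA_M hf hg hfg H := ⟨_, rfl⟩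
  have hmem : ∀ p q : K, (p, q) ∈ M ↔ f p * g q ∈ H := by
    intro p q
    rw [hM]
    exact Iff.rfl
  have hD : ∀ p q : K, (p, q) ∈ M → (-(ε * κ * q), ε * p - κ * q) ∈ M := by
    intro p q hpq
    have h1 : (p - ε * κ * q, q + ε * (p - ε * κ * q)) ∈ M := by
      rw [hmem, ← hY]
      exact H.mul_mem (H.mul_mem hYH ((hmem p q).1 hpq)) (H.inv_mem hYH)
    have h2 := M.sub_mem h1 hpq
    have e : ((p - ε * κ * q, q + ε * (p - ε * κ * q)) - (p, q) : K × K) = (-(ε * κ * q), ε * p - κ * q) := by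
      refine Prod.ext ?_ ?_
      · show p - ε * κ * q - p = -(ε * κ * q)
        ring
      · show q + ε * (p - ε * κ * q) - q = ε * p - κ * q
        linear_combination (-(κ * q)) * hε2
    rw [e] at h2
    exact h2
  have hI : ∀ p q : K, (p, q) ∈ M → (p - κ * p + ε * κ * q, q - ε * p) ∈ M := by
    intro p q hpq
    rw [hmem]
    have h1 := hY (p - κ * p + ε * κ * q) (q - ε * p)
    have e1 : p - κ * p + ε * κ * q - ε * κ * (q - ε * p) = p := by
      linear_combination (κ * p) * hε2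
    rw [e1] at h1
    have e2 : q - ε * p + ε * p = q := by ring
    rw [e2] at h1
    have h2 : f (p - κ * p + ε * κ * q) * g (q - ε * p) = Y⁻¹ * (f p * g q) * Y := by
      rw [← h1]
      group
    rw [h2]
    exact H.mul_mem (H.mul_mem (H.inv_mem hYH) ((hmem p q).1 hpq)) hYH
  have hκM : ∀ p q : K, (p, q) ∈ M → (κ * p, κ * q) ∈ M := by
    intro p q hpq
    have h1 := hD _ _ (hD _ _ (hI p q hpq))
    have h2 := M.neg_mem h1
    refine (congrArg (fun m => m ∈ M) (Prod.ext ?_ ?_)).mp h2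
    · show -(-(ε * κ * (ε * (p - κ * p + ε * κ * q) - κ * (q - ε * p)))) = κ * p
      linear_combination (κ * (p - κ * p + ε * κ * q) + κ ^ 2 * p) * hε2
    · show -(ε * -(ε * κ * (q - ε * p)) - κ * (ε * (p - κ * p + ε * κ * q) - κ * (q - ε * p))) = κ * q
      linear_combination (κ * (q - ε * p) + κ ^ 2 * q) * hε2
  have hA : ∀ a ∈ Subring.closure {κ}, ∀ p q : K, (p, q) ∈ M → (a * p, a * q) ∈ M := by
    intro a ha
    induction ha using Subring.closure_induction with
    | mem x hx =>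
      rw [Set.mem_singleton_iff.1 hx]
      exact hκM
    | zero =>
      intro p q _
      rw [zero_mul, zero_mul]
      exact M.zero_mem
    | one =>
      intro p q h
      rw [one_mul, one_mul]
      exact h
    | add x y _ _ hx hy =>
      intro p q h
      have := M.add_mem (hx p q h) (hy p q h)
      rw [add_mul, add_mul]
      exact this
    | neg x _ hx =>
      intro p q h
      have := M.neg_mem (hx p q h)
      rw [neg_mul, neg_mul]
      exact this
    | mul x y _ _ hx hy =>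
      intro p q h
      have := hx _ _ (hy p q h)
      rw [mul_assoc, mul_assoc]
      exact this
  have hκA : κ ∈ Subring.closure {κ} := Subring.subset_closure (Set.mem_singleton κ)
  have hεA : ε ∈ Subring.closure {κ} := by
    rcases hε with h | h
    · rw [h]; exact Subring.one_mem _
    · rw [h]; exact Subring.neg_mem _ (Subring.one_mem _)
  -- `(s, 0)` and `(0, s)` are in `M`
  have h10 : ∀ a : K, (a, 0) ∈ M → (0, a) ∈ M := by
    intro a ha
    have h1 := hA ε hεA _ _ (hD _ _ ha)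
    refine (congrArg (fun m => m ∈ M) (Prod.ext ?_ ?_)).mp h1
    · show ε * -(ε * κ * 0) = 0
      ring
    · show ε * (ε * a - κ * 0) = a
      linear_combination a * hε2
  have h01 : ∀ a : K, (0, a) ∈ M → (a, 0) ∈ M := by
    intro a ha
    obtain ⟨n, hn⟩ := KVA_pow κ hκ
    have h1 := M.add_mem (hD _ _ ha) (hκM _ _ ha)
    have h2 := hA (-(ε * κ ^ n)) (Subring.neg_mem _ (Subring.mul_mem _ hεA (Subring.pow_mem _ hκA n))) _ _ h1
    refine (congrArg (fun m => m ∈ M) (Prod.ext ?_ ?_)).mp h2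
    · show -(ε * κ ^ n) * (-(ε * κ * a) + κ * 0) = a
      linear_combination (κ ^ n * κ * a) * hε2 + a * hn
    · show -(ε * κ ^ n) * (ε * 0 - κ * a + κ * a) = 0
      ring
  have hsM : (s, 0) ∈ M ∧ (0, s) ∈ M := by
    rcases h with h | h
    · have h1 : (s, (0 : K)) ∈ M := by
        rw [hmem, KVA_zero hg, mul_one]
        exact h
      exact ⟨h1, h10 s h1⟩
    · have h1 : ((0 : K), s) ∈ M := by
        rw [hmem, KVA_zero hf, one_mul]
        exact h
      exact ⟨h01 s h1, h1⟩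
  intro t ht
  obtain ⟨n, hn⟩ := KVA_pow s hs0
  have htn : t * s ^ n ∈ Subring.closure {κ} := Subring.mul_mem _ ht (Subring.pow_mem _ hs n)
  have e : t * s ^ n * s = t := by rw [mul_assoc, hn, mul_one]
  constructor
  · have h1 := hA _ htn _ _ hsM.1
    rw [e, mul_zero, hmem, KVA_zero hg, mul_one] at h1
    exact h1
  · have h1 := hA _ htn _ _ hsM.2
    rw [e, mul_zero, hmem, KVA_zero hf, one_mul] at h1
    exact h1

theorem KVA_grp (A B p q p' q' c d : G) (h1 : B * q * B⁻¹ = q * c) (h2 : B * p = p * B) (h3 : q * c = c * q)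
    (h4 : p * c = p') (h5 : A * p' * A⁻¹ = p' * d) (h6 : A * q = q * A) (h7 : d * q = q') :
    (A * B) * (p * q) * (A * B)⁻¹ = p' * q' := by
  have e1 : B * (p * q) * B⁻¹ = p' * q := by
    calc B * (p * q) * B⁻¹ = (B * p) * q * B⁻¹ := by group
      _ = p * (B * q * B⁻¹) := by rw [h2]; group
      _ = p * (c * q) := by rw [h1, h3]
      _ = p' * q := by rw [← mul_assoc, h4]
  calc (A * B) * (p * q) * (A * B)⁻¹ = A * (B * (p * q) * B⁻¹) * A⁻¹ := by group
    _ = A * (p' * q) * A⁻¹ := by rw [e1]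
    _ = (A * p' * A⁻¹) * ((A * q) * A⁻¹) := by group
    _ = (p' * d) * q := by rw [h5, h6]; group
    _ = p' * q' := by rw [mul_assoc, h7]

end

theorem KVA : KVA_stmt := by
  intro K _ κ hκ r hr hrth
  have hr2 := hr.1
  have hth : ip C6 th th = 2 := by decide
  have hthr : ip C6 th r = -1 := by rw [ip_comm, hrth]
  have hrr : ip C6 (r + th) (r + th) = 2 := by
    rw [ip_add_left, ip_add_right, ip_add_right, hr2, hth, hrth, hthr]
    norm_num
  have hnt : ip C6 (-th) (-th) = 2 := by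
    rw [ip_neg_left, ip_neg_right, hth]
    norm_num
  have hnr : ip C6 (-th) (r + th) = -1 := by
    rw [ip_neg_left, ip_add_right, hth, hthr]
    norm_num
  have hntr : 0 ≤ ip C6 (-th) r := by
    rw [ip_neg_left, hthr]
    norm_num
  have htr : 0 ≤ ip C6 th (r + th) := by
    rw [ip_add_right, hth, hthr]
    norm_num
  have hrrt : 0 ≤ ip C6 r (r + th) := by
    rw [ip_add_right, hr2, hrth]
    norm_num
  have hrrt' : 0 ≤ ip C6 (r + th) r := by
    rw [ip_comm]
    exact hrrt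
  have hsg : (sg C6 (-th) (r + th) : K) = -(sg C6 th r : K) := by
    rw [sg_neg_left, sg_add_right, sg_self C6 hth]
    push_cast
    ring
  have eth : -th + (r + th) = r := by abel
  have eth2 : th + r = r + th := by abel
  have key : ∀ p q : K, (XG C6 th 1 * XG C6 (-th) κ) * (XG C6 r p * XG C6 (r + th) q) * (XG C6 th 1 * XG C6 (-th) κ)⁻¹ =
      XG C6 r (p - ((sg C6 th r : ℤ) : K) * κ * q) *
        XG C6 (r + th) (q + ((sg C6 th r : ℤ) : K) * (p - ((sg C6 th r : ℤ) : K) * κ * q)) := by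
    intro p q
    have g1 := (k_GXC 6 C6 K hb6 (-th) (r + th) hnt hrr κ q).2.2.2 hnr
    rw [eth, hsg] at g1
    have g2 := (k_GXC 6 C6 K hb6 (-th) r hnt hr2 κ p).2.2.1 hntr
    have g3 := (k_GXC 6 C6 K hb6 (r + th) r hrr hr2 q (κ * q * -((sg C6 th r : ℤ) : K))).2.2.1 hrrt'
    have g4 := (k_GXC 6 C6 K hb6 r r hr2 hr2 p (κ * q * -((sg C6 th r : ℤ) : K))).1
    have e4 : p + κ * q * -((sg C6 th r : ℤ) : K) = p - ((sg C6 th r : ℤ) : K) * κ * q := by ring
    rw [e4] at g4
    have g5 := (k_GXC 6 C6 K hb6 th r hth hr2 1 (p - ((sg C6 th r : ℤ) : K) * κ * q)).2.2.2 hthr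
    rw [eth2] at g5
    have g6 := (k_GXC 6 C6 K hb6 th (r + th) hth hrr 1 q).2.2.1 htr
    have g7 := (k_GXC 6 C6 K hb6 (r + th) (r + th) hrr hrr
      (1 * (p - ((sg C6 th r : ℤ) : K) * κ * q) * ((sg C6 th r : ℤ) : K)) q).1
    have e7 : 1 * (p - ((sg C6 th r : ℤ) : K) * κ * q) * ((sg C6 th r : ℤ) : K) + q =
        q + ((sg C6 th r : ℤ) : K) * (p - ((sg C6 th r : ℤ) : K) * κ * q) := by ring
    rw [e7] at g7
    exact KVA_grp _ _ _ _ _ _ _ _ g1 g2 g3 g4.symm g5 g6 g7.symm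
  refine ⟨⟨sg C6 th r, sg_cases C6 th r, key⟩, ?_⟩
  intro hfin H hYH s hs hs0 h
  refine KVA_abs κ ((sg C6 th r : ℤ) : K) hκ ?_ (fun a => XG C6 r a) (fun a => XG C6 (r + th) a) ?_ ?_ ?_
    (XG C6 th 1 * XG C6 (-th) κ) key H hYH s hs hs0 h
  · rcases sg_cases C6 th r with h | h
    · left; rw [h]; norm_num
    · right; rw [h]; norm_num
  · intro a b
    exact (k_GXC 6 C6 K hb6 r r hr2 hr2 a b).1
  · intro a b
    exact (k_GXC 6 C6 K hb6 (r + th) (r + th) hrr hrr a b).1
  · intro a b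
    exact (k_GXC 6 C6 K hb6 r (r + th) hr2 hrr a b).2.2.1 hrrt

end Pool.Agent.EXT
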